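import Pool.Agent.H77.RZ.Stmts

/-!
# RZ, module DQ: the discriminant and a value of the cubic
-/

set_option autoImplicit false

namespace Pool.RZ

open Polynomial Matrix Pool.AVR Pool.AVS

theorem dq_thm : DQStmt := by
  intro F _ P u D a b c hP hD h1 h2
  have hPr : Prime P := hP.prime
  obtain ⟨w, hw⟩ := h1
  obtain ⟨g, hg⟩ := h2
  have key : P ^ 2 ∣ D ^ 6 * disc a b c := by
    refine ⟨g ^ 2 * ((u + a * D) ^ 2 - 4 * (u ^ 2 + a * D * u + b * D ^ 2)) +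
      w * (-4 * (a * D) ^ 3 + 18 * (a * D) * (b * D ^ 2) +
        54 * (u ^ 3 + a * D * u ^ 2 + b * D ^ 2 * u)) - 27 * w * (P ^ 2 * w), ?_⟩
    have e1 : D ^ 6 * disc a b c = (3 * u ^ 2 + 2 * a * u * D + b * D ^ 2) ^ 2 *
        ((u + a * D) ^ 2 - 4 * (u ^ 2 + a * D * u + b * D ^ 2)) +
        (u ^ 3 + a * u ^ 2 * D + b * u * D ^ 2 + c * D ^ 3) *
          (-4 * (a * D) ^ 3 + 18 * (a * D) * (b * D ^ 2) +
            54 * (u ^ 3 + a * D * u ^ 2 + b * D ^ 2 * u)) -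
        27 * (u ^ 3 + a * u ^ 2 * D + b * u * D ^ 2 + c * D ^ 3) ^ 2 := by
      unfold disc
      ring
    rw [e1, hg, hw]
    ring
  have hco : IsCoprime (P ^ 2) (D ^ 6) := by
    have h : IsCoprime P D := (hP.coprime_iff_not_dvd).2 hD
    exact h.pow
  exact hco.dvd_of_dvd_mul_left key

end Pool.RZ
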