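import Pool.Agent.H77.RZ.Stmts

/-!
# RZ, module KD: descent on the twists
-/

set_option autoImplicit false

namespace Pool.RZ

open Polynomial Matrix Pool.AVR Pool.AVS

namespace KD

/-- The substitution `X ↦ X / d`. -/
theorem cub_comp {K : Type} [Field K] (a b c d : K) (hd : d ≠ 0) :
    cub (d * a) (d ^ 2 * b) (d ^ 3 * c) = C (d ^ 3) * (cub a b c).comp (C d⁻¹ * X) := by
  have h1 : (C d⁻¹ : K[X]) * C d = 1 := by
    rw [← C_mul, inv_mul_cancel₀ hd, C_1]
  simp only [cub, add_comp, mul_comp, pow_comp, X_comp, C_comp, C_mul, C_pow]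
  linear_combination (-(X ^ 3) * ((C d⁻¹ * C d) ^ 2 + C d⁻¹ * C d + 1) -
    C a * X ^ 2 * C d * (C d⁻¹ * C d + 1) - C b * C d ^ 2 * X) * h1

/-- Squares modulo the cubic of the twist. -/
theorem dvd_tw {K : Type} [Field K] (a b c d x : K) (hd : d ≠ 0) (u : K[X])
    (h : cub a b c ∣ (C x - C d * X) - u ^ 2) :
    cub (d * a) (d ^ 2 * b) (d ^ 3 * c) ∣ C x - X - (u.comp (C d⁻¹ * X)) ^ 2 := by
  obtain ⟨r, hr⟩ := h
  have h1 := congrArg (fun p => p.comp (C d⁻¹ * X)) hr
  simp only [sub_comp, mul_comp, pow_comp, X_comp, C_comp] at h1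
  have h2 : (C d : K[X]) * (C d⁻¹ * X) = X := by
    rw [← mul_assoc, ← C_mul, mul_inv_cancel₀ hd, C_1, one_mul]
  rw [h2] at h1
  rw [h1, cub_comp a b c d hd]
  have h3 : (C (d ^ 3) : K[X]) * C ((d ^ 3)⁻¹) = 1 := by
    rw [← C_mul, mul_inv_cancel₀ (pow_ne_zero 3 hd), C_1]
  refine ⟨C ((d ^ 3)⁻¹) * r.comp (C d⁻¹ * X), ?_⟩
  linear_combination -((cub a b c).comp (C d⁻¹ * X) * r.comp (C d⁻¹ * X)) * h3

end KD

open KD

theorem kd_thm (hKER : KERStmt) (hMWL : MWLStmt) (hRNK : RNKStmt) (hDSC : DSCStmt) :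
    KDStmt := by
  intro F _ _ h2 f d hd hirr hsep hcl
  classical
  have h2K : (2 : RatFunc F) ≠ 0 := by
    intro h
    apply h2
    have h3 : algebraMap F (RatFunc F) 2 = algebraMap F (RatFunc F) 0 := by
      rw [map_ofNat, map_zero]
      exact h
    exact (algebraMap F (RatFunc F)).injective h3
  have hinj := RatFunc.algebraMap_injective F
  have hdK : rf d ≠ 0 := (map_ne_zero_iff _ hinj).2 hd
  have htw : cubK (tw d f) = cub (rf d * (kf f).1) (rf d ^ 2 * (kf f).2.1)
      (rf d ^ 3 * (kf f).2.2) := by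
    unfold cubK tw kf
    simp only [map_mul, map_pow]
  have hf : cubK f = cub (kf f).1 (kf f).2.1 (kf f).2.2 := rfl
  have hsep' : (cubK (tw d f)).Separable := by
    rw [htw, (hDSC (RatFunc F) h2K _ _ _).1]
    have h3 : disc (kf f).1 (kf f).2.1 (kf f).2.2 ≠ 0 := by
      rw [← (hDSC (RatFunc F) h2K _ _ _).1]
      exact hsep
    have h4 : disc (rf d * (kf f).1) (rf d ^ 2 * (kf f).2.1) (rf d ^ 3 * (kf f).2.2) =
        rf d ^ 6 * disc (kf f).1 (kf f).2.1 (kf f).2.2 := by
      simp only [disc]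
      ring
    rw [h4]
    exact mul_ne_zero (pow_ne_zero 6 hdK) h3
  have hdiv : ∀ P : EK (tw d f), ∃ Q : EK (tw d f), P = Q + Q := by
    intro P
    rcases P with _ | ⟨x, y, h⟩
    · exact ⟨0, (add_zero (0 : EK (tw d f))).symm⟩
    · have heq := h.1
      rw [WeierstrassCurve.Affine.equation_iff] at heq
      simp only [E] at heq
      have hOn : OnC (kf (tw d f)).1 (kf (tw d f)).2.1 (kf (tw d f)).2.2 x y := by
        unfold OnC
        simp only [kf]
        linear_combination heq
      have hy : y ≠ 0 := by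
        intro hy0
        have hroot : (cubK f).IsRoot (x / rf d) := by
          have h3 : x ^ 3 + rf d * (kf f).1 * x ^ 2 + rf d ^ 2 * (kf f).2.1 * x +
              rf d ^ 3 * (kf f).2.2 = 0 := by
            have h4 := hOn
            unfold OnC at h4
            rw [hy0] at h4
            simp only [kf, tw, map_mul, map_pow] at h4 ⊢
            linear_combination -h4
          rw [hf]
          simp only [cub, IsRoot.def, eval_add, eval_mul, eval_pow, eval_X, eval_C]
          field_simp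
          linear_combination h3
        have hdeg : (cubK f).natDegree = 3 := by
          unfold cubK cub
          compute_degree!
        have h8 : (cubK f).natDegree = 1 := natDegree_eq_of_degree_eq_some
          (degree_eq_one_of_irreducible_of_root hirr hroot)
        rw [hdeg] at h8
        exact absurd h8 (by norm_num)
      obtain ⟨u, hu⟩ := hcl x y hOn hy
      have h5 := dvd_tw _ _ _ _ x hdK u (by rw [← hf]; exact hu)
      rw [← htw] at h5
      exact hKER (RatFunc F) h2K _ _ _ hsep' x y h _ h5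
  refine ⟨hdiv, ?_⟩
  have hsub : Subsingleton (Mod2 (EK (tw d f))) := by
    refine ⟨fun p q => ?_⟩
    obtain ⟨P, rfl⟩ := QuotientAddGroup.mk_surjective p
    obtain ⟨Q, rfl⟩ := QuotientAddGroup.mk_surjective q
    rw [QuotientAddGroup.eq]
    obtain ⟨R, hR⟩ := hdiv (-P + Q)
    refine ⟨R, ?_⟩
    rw [hR]
    simp [two_nsmul]
  have hfin : Finite (Mod2 (EK (tw d f))) := Finite.of_subsingleton
  have hFG : AddGroup.FG (EK (tw d f)) := hMWL F h2 (tw d f) hsep' hfin
  have hle := (hRNK (EK (tw d f)) hFG).2.1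
  have hcard : Nat.card (Mod2 (EK (tw d f))) ≤ 1 := Finite.card_le_one_iff_subsingleton.2 hsub
  have h9 : 2 ^ rk (tw d f) ≤ 1 := le_trans hle hcard
  by_contra h10
  have h11 : 1 < 2 ^ rk (tw d f) := Nat.one_lt_two_pow h10
  omega

end Pool.RZ
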